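import Pool.Agent.Results.MP_28b024_mp.DiffusionProfile
import Pool.Agent.R988.Msd1

/-!
# Small disorder, `d ≥ 3`: the Kubo conductivity at every energy is the one of Drude and Boltzmann

`H = -Δ + λ V_ω` on `ℤ^d`, `d ≥ 3`, `ω_x` iid with any law on `[-b, b]` of mean `M` and variance
`V ≥ v > 0` (no regularity is needed; fair signs are allowed: `M = 0`, `V = 1`; this is the Bernoulli
Anderson model with a small coupling `λ`), `λ ≤ λ₀(d, b, v)`. Kubo's formula for the conductivity at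
the energy `e` and the scale `η` (the complex frequency is `2 i η`), at the site `a` and in the
direction `i`, is, up to a numerical factor,

  `K(e, η) = η² ∑_x (x_i - a_i)² |G(x, a; e + iη)|²`,  `G(z) = (H - z)⁻¹`.

With probability at least `1 - exp(-λ^{-1/102})` the following holds simultaneously for all sites
`|a| ≤ exp(λ^{-1/102})`, all energies `|e - 2 d - λ M| ≤ 3 d` (the whole spectrum, with the band
edges), all scales `λ^{2 + 1/41} ≤ η ≤ λ² V` and all directions: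

  `λ² V K(e, η) = 2 Im g₁(E) / (η / (λ² V) + Im g₀(E)) + O(λ^{1/301})`,  `E = 2 d + λ M - e`.

This is the Drude formula (`2 λ² V Im g₀(E)` is the rate of the collisions, and
`4 Im g₁(E) / Im g₀(E)` is the mean over the energy surface of the square of a component of the
velocity), for one fixed realisation of the disorder and without an average over the energies.
-/

set_option autoImplicit false

open scoped BigOperators ENNReal Topology
open MeasureTheory Filter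

namespace Pool.Agent.Results.MP_d0f69c_mp.KuboFormula

open Pool.Agent.Results.MP_28b024_mp.MobilityEdgeScale
open Pool.Agent.Results.MP_28b024_mp.DiffusionProfile

/-- `η² ∑_x (x_i - a_i)² |u(x)|²`; for `u = (H - e - iη)⁻¹ δ_a` this is Kubo's formula -/
noncomputable def kubo {d : ℕ} (a : Fin d → ℤ) (i : Fin d) (η : ℝ) (u : (Fin d → ℤ) → ℂ) : ℝ :=
  η ^ 2 * ∑' x : Fin d → ℤ, ((x i : ℝ) - a i) ^ 2 * ‖u x‖ ^ 2

/-- the Drude formula: `2 Im g₁(E) / (τ + Im g₀(E))` -/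
noncomputable def drude (d : ℕ) (E τ : ℝ) : ℝ := 2 * (g1 d E).im / (τ + (g0 d E).im)

/-- **Theorem.** -/
theorem result (d : ℕ) (hd : 3 ≤ d) :
    (∀ κ : ℝ, 0 < κ → κ ≤ 1 → ∃ m : ℝ, 0 < m ∧ ∀ E : ℝ, |E| ≤ 2 * d - κ →
      m ≤ (g1 d E).im ∧ (g1 d E).im ≤ (g0 d E).im) ∧
    ∀ b v : ℝ, 0 < b → 0 < v → ∃ lam0 : ℝ, 0 < lam0 ∧
      ∀ (μ : Measure ℝ) [IsProbabilityMeasure μ], (∀ᵐ s ∂μ, |s| ≤ b) →
      ∀ M V : ℝ, ∫ s, s ∂μ = M → ∫ s, (s - M) ^ 2 ∂μ = V → v ≤ V →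
      ∀ lam : ℝ, 0 < lam → lam ≤ lam0 →
      ∃ G : Set ((Fin d → ℤ) → ℝ), MeasurableSet G ∧
        1 - Real.exp (-lam ^ (-(1 / 102) : ℝ)) ≤
          (Measure.infinitePi fun _ : Fin d → ℤ => μ).real G ∧
        ∀ ω ∈ G, ∀ a : Fin d → ℤ, ‖a‖ ≤ Real.exp (lam ^ (-(1 / 102) : ℝ)) →
          ∀ e : ℝ, |e - 2 * d - lam * M| ≤ 3 * d →
          ∀ η : ℝ, lam ^ (83 / 41 : ℝ) ≤ η → η ≤ lam ^ 2 * V →
            (∃ u, IsGreen lam ω a e η u) ∧
            ∀ u, IsGreen lam ω a e η u → ∀ i : Fin d,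
              (Summable fun x : Fin d → ℤ => ((x i : ℝ) - a i) ^ 2 * ‖u x‖ ^ 2) ∧
              |lam ^ 2 * V * kubo a i η u - drude d (2 * d + lam * M - e) (η / (lam ^ 2 * V))| ≤
                lam ^ (1 / 301 : ℝ) := by
  obtain ⟨γ0, γ1, h⟩ := Pool.Agent.R988.msd1 d (by omega)
  have hreg : ∀ κ E : ℝ, |E| ≤ 3 * d → Pool.Agent.TH794.QE.RegE d κ E :=
    fun κ E hE => Or.inr ⟨hd, hE⟩
  have hg0 : ∀ E : ℝ, |E| ≤ 3 * d → γ0 E = g0 d E := fun E hE =>
    tendsto_nhds_unique ((h 1 one_pos le_rfl).1 E (hreg 1 E hE)).1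
      (Pool.Agent.TH794.QE.lim3 _ _
        (Pool.Agent.TH794.QD.hol0 Pool.Agent.W918.BK.Osc.osc d hd) E)
  have hg1 : ∀ E : ℝ, |E| ≤ 3 * d → γ1 E = g1 d E := fun E hE =>
    tendsto_nhds_unique ((h 1 one_pos le_rfl).1 E (hreg 1 E hE)).2.1
      (Pool.Agent.TH794.QE.lim3 _ _
        (Pool.Agent.TH794.QD.hol1 Pool.Agent.W918.BK.Osc.osc d hd) E)
  have hd0 : (0 : ℝ) ≤ d := Nat.cast_nonneg d
  refine ⟨fun κ hκ hκ1 => ?_, fun b v hb hv => ?_⟩
  · obtain ⟨h1, ⟨m, hm, h2⟩, -⟩ := h κ hκ hκ1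
    refine ⟨m, hm, fun E hE => ?_⟩
    have hE3 : |E| ≤ 3 * d := hE.trans (by linarith)
    have h3 := h2 E (hreg κ E hE3) hE
    have h4 := (h1 E (hreg κ E hE3)).2.2.2
    rw [hg1 E hE3] at h3 h4
    rw [hg0 E hE3] at h4
    exact ⟨h3, h4⟩
  · obtain ⟨l0, hl0, -, h3⟩ := (h 1 one_pos le_rfl).2.2 b v hb hv
    refine ⟨l0, hl0, fun μ hμ hμb M V hM hV hvV lam hlam hle => ?_⟩
    obtain ⟨G, hG, hP, hL⟩ := h3 lam hlam hle μ hμ hμb M V hM hV hvV
    refine ⟨G, hG, hP, fun ω hω a ha e he η hη1 hη2 => ?_⟩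
    obtain ⟨hωb, hL'⟩ := hL ω hω
    have hη0 : 0 < η := lt_of_lt_of_le (Real.rpow_pos_of_pos hlam _) hη1
    have hE3 : |2 * (d : ℝ) + lam * M - e| ≤ 3 * d := by
      rw [← abs_neg]
      refine le_trans (le_of_eq ?_) he
      congr 1
      ring
    constructor
    · obtain ⟨u, hu⟩ := Pool.Agent.TH794.QE.rs_exists (fun x => 2 * (d : ℝ) + lam * ω x)
        (2 * d + lam * b) (fun x => by
          refine (abs_add_le _ _).trans ?_
          rw [abs_of_nonneg (by positivity : (0 : ℝ) ≤ 2 * d), abs_mul, abs_of_pos hlam]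
          have := mul_le_mul_of_nonneg_left (hωb x) hlam.le
          linarith) a e η hη0
      exact ⟨u, (green_iff lam ω a e η u).2 hu⟩
    · intro u hu i
      obtain ⟨h5, h6⟩ := hL' a ha e (hreg 1 _ hE3) η hη1 hη2 u ((green_iff lam ω a e η u).1 hu) i
      refine ⟨h5, ?_⟩
      rw [hg0 _ hE3, hg1 _ hE3] at h6
      unfold kubo drude
      refine le_trans (le_of_eq ?_) h6
      congr 1
      ring

end Pool.Agent.Results.MP_d0f69c_mp.KuboFormula
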