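import Pool.Agent.N659.HB.AllL

set_option autoImplicit false

/-!
# Every disorder strength: nearby laws with absolutely continuous spectrum

Let `μ` be any law with bounded support (for instance fair signs, or the uniform law on `[-c, c]`,
every `c`). For every `ε > 0`, every dimension `d ≥ 1` and every interval `(a₁, a₂)` there are a law
`ν`, `ε`-close to `μ`, with compact support and bounded density, and a continuous `b` with
`|b| ≤ ε` such that `-Δ + b(-Δ) + ω`, `ω` i.i.d. with law `ν`, has almost surely purely absolutely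
continuous spectrum filling `(a₁, a₂)`.
-/

namespace Pool.Agent.Results.MP_d0f69c_mp.NearbyLawAC

open MeasureTheory
open scoped ENNReal

noncomputable section

/-- The hopping amplitudes of `b(-Δ)` on `ℤ^d`: the Fourier coefficients of the symbol
`b(∑ i (2 - 2 cos (2 π k_i)))`. -/
def hopping (b : ℝ → ℝ) (d : ℕ) (x : Fin d → ℤ) : ℂ :=
  UnitAddTorus.mFourierCoeff
    (fun k : UnitAddTorus (Fin d) => ((b (∑ i, (2 - 2 * (fourier 1 (k i)).re)) : ℝ) : ℂ)) x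

/-- `(-Δ + b(-Δ) + ω) u (x)`. -/
def H (b : ℝ → ℝ) {d : ℕ} (ω : (Fin d → ℤ) → ℝ) (u : (Fin d → ℤ) → ℂ)
    (x : Fin d → ℤ) : ℂ :=
  (∑ i : Fin d, (2 * u x - u (x + Pi.single i 1) - u (x - Pi.single i 1)))
    + (∑' y, hopping b d (x - y) * u y) + ((ω x : ℝ) : ℂ) * u x

/-- `u` is square summable and `(H - z) u = δ_x`, i.e. `u = (H - z)⁻¹ δ_x`. -/
def IsGreen (b : ℝ → ℝ) {d : ℕ} (ω : (Fin d → ℤ) → ℝ) (z : ℂ) (x : Fin d → ℤ)
    (u : (Fin d → ℤ) → ℂ) : Prop :=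
  Summable (fun y => ‖u y‖ ^ 2) ∧ ∀ y, H b ω u y - z * u y = if y = x then 1 else 0

/-- Purely absolutely continuous spectrum filling the interval `(a₁, a₂)`: for every site `x` the
spectral measure `μ` of `δ_x`, i.e. the finite measure with
`⟨δ_x, (H - z)⁻¹ δ_x⟩ = ∫ dμ(E) / (E - z)`, has on `(a₁, a₂)` a density `h`, positive almost
everywhere there. -/
def ACOn (b : ℝ → ℝ) {d : ℕ} (ω : (Fin d → ℤ) → ℝ) (a₁ a₂ : ℝ) : Prop :=
  ∀ x : Fin d → ℤ, ∃ (μ : Measure ℝ) (h : ℝ → ℝ), IsFiniteMeasure μ ∧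
    (∀ z : ℂ, 0 < z.im → (∃ u, IsGreen b ω z x u) ∧
      ∀ u, IsGreen b ω z x u → u x = ∫ E : ℝ, 1 / ((E : ℂ) - z) ∂μ) ∧
    Measurable h ∧ (∀ᵐ E ∂(volume.restrict (Set.Ioo a₁ a₂)), 0 < h E) ∧
    μ.restrict (Set.Ioo a₁ a₂)
      = (volume.restrict (Set.Ioo a₁ a₂)).withDensity fun E => ENNReal.ofReal (h E)

theorem ac_of {b : ℝ → ℝ} {d : ℕ} (B : C(UnitAddTorus (Fin d), ℝ))
    (hB : ∀ k, B k = b (W792.LL.lap d k)) {ω : (Fin d → ℤ) → ℝ} {a₁ a₂ : ℝ}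
    (h : W792.WA.ACIK (W792.LL.lap d + B) 1 ω a₁ a₂) : ACOn b ω a₁ a₂ := by
  intro x
  obtain ⟨μ, g, h1, h2, h3, h4, h5⟩ := h x
  have e0 : (fun k : UnitAddTorus (Fin d) => ((B k : ℝ) : ℂ))
      = fun k => ((b (∑ i, (2 - 2 * (fourier 1 (k i)).re)) : ℝ) : ℂ) := by
    funext k
    rw [hB]
    rfl
  refine ⟨μ, g, h1, fun z hz => ?_, h3, h4, h5⟩
  have e : ∀ u, W792.LL.Sol (W792.LL.hopK (W792.LL.lap d + B)) 1 ω z x u
      ↔ IsGreen b ω z x u := by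
    intro u
    rw [W792.WA.Br.sol_iff B 1 ω z x u, e0]
    unfold IsGreen H hopping
    simp only [one_mul]
  obtain ⟨⟨w, hw⟩, h6⟩ := h2 z hz
  exact ⟨⟨w, (e w).1 hw⟩, fun u hu => h6 u ((e u).2 hu)⟩

/-- Let `μ` be a probability law on `ℝ` with bounded support, `d ≥ 1`, `a₁ < a₂`, `ε > 0`. There are
a probability law `ν` with compact support and bounded density and a coupling `π` of `μ` and `ν`
with `π {|x - y| > ε} ≤ ε` (and if `μ` is absolutely continuous, `ν` is `ε`-close to `μ` in total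
variation), and a continuous function `b` with `|b| ≤ ε` and hopping amplitudes at most
`ε / (1 + |x|) ^ (d / 3)`, for which the spectrum of `-Δ + b(-Δ) + ω`, `ω` i.i.d. with law `ν`, in
`(a₁, a₂)` is almost surely purely absolutely continuous, and it fills this interval. -/
theorem result (μ : Measure ℝ) [IsProbabilityMeasure μ] (W : ℝ) (hμ : ∀ᵐ x ∂μ, |x| ≤ W) (d : ℕ)
    (hd : 0 < d) (a₁ a₂ : ℝ) (hab : a₁ < a₂) (ε : ℝ) (hε : 0 < ε) :
    ∃ (ν : Measure ℝ) (_ : IsProbabilityMeasure ν) (π : Measure (ℝ × ℝ)) (b : ℝ → ℝ),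
      π.map Prod.fst = μ ∧ π.map Prod.snd = ν ∧
      π {p | ε < |p.1 - p.2|} ≤ ENNReal.ofReal ε ∧
      (∃ R B : ℝ, ν (Set.Icc (-R) R)ᶜ = 0 ∧
        ∀ A : Set ℝ, MeasurableSet A → ν A ≤ ENNReal.ofReal B * volume A) ∧
      (μ ≪ volume → ∀ A : Set ℝ, MeasurableSet A → |(ν A).toReal - (μ A).toReal| ≤ ε) ∧
      Continuous b ∧ (∀ t, |b t| ≤ ε) ∧
      (∀ x : Fin d → ℤ, ‖hopping b d x‖ ≤ ε / (1 + ‖x‖) ^ ((d : ℝ) / 3)) ∧
      ∀ᵐ ω ∂(Measure.infinitePi fun _ : Fin d → ℤ => ν), ACOn b ω a₁ a₂ := by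
  have hW : 0 ≤ W := by
    obtain ⟨x, hx⟩ := hμ.exists
    exact (abs_nonneg x).trans hx
  have hs : μ (Set.Icc (-W) W)ᶜ = 0 := by
    refine measure_mono_null ?_ (ae_iff.1 hμ)
    intro x hx h
    exact hx (abs_le.1 h)
  obtain ⟨ν, hν, π, h1, h2, h3, ⟨R, B, -, -, h4, h5⟩, h6, f, h7, h8, h9⟩ :=
    N659.HB.Al.ldT μ W hW hs d a₁ a₂ ε hd hab hε
  refine ⟨ν, hν, π, f, h1, h2, h3, ⟨R, B, h4, h5⟩, h6, f.continuous, h7, h8, ?_⟩
  change ∀ᵐ ω ∂(W792.WA.Pn ν (Fin d → ℤ)), _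
  filter_upwards [h9] with v hv
  exact ac_of (W792.WA.gK f d) (fun k => rfl) hv

end

end Pool.Agent.Results.MP_d0f69c_mp.NearbyLawAC
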